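import Pool.Agent.MWP.Stmts

/-!
# The four letter pentagon, period `n` (definitions)

Block MWPN (MP_23468a_al), the version of MWP for `x² ≈ x^(n+2)` (exact period `n`) and
`xyx ≈ x^(n+1) y x^(n+1)`.  The letters of the gap word `v` occur at least twice and may have
arbitrary counts mod `n`.  Letters as in MWP: `0` the simple letter, `1, 2 | 3, 4` the four
letters, `5, 6` the pins, `c + 7` the letters of the gap word.  `Chn`, `Hgt`, `Good`, `Sg`, `Cb`, `Cc`,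
`Ck`, `ro`, `Bf` are those of `Pool.Agent.MWP`.
-/

namespace Pool.Agent.MWPN

open Pool.Agent.Helper14_MV Pool.Agent.Helper2_MV Pool.Agent.MWF Pool.Agent.MWP

/-- every letter occurs at least twice -/
def Mul (v : List ℕ) : Prop := ∀ c ∈ v, [c, c].Sublist v

/-- the idempotent power `c^(2n)` -/
def ip (n c : ℕ) : List ℕ := List.replicate (2 * n) c

/-- hypotheses on the fully invariant congruence, period `n` -/
structure BtN (n : ℕ) (β : FIC) : Prop where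
  pos : 1 ≤ n
  per : RR β [0, 0] (List.replicate (n + 2) 0)
  ex : ∀ p q : ℕ, RR β (List.replicate p 0) (List.replicate q 0) →
    p = q ∨ (2 ≤ p ∧ 2 ≤ q ∧ p ≡ q [MOD n])
  bet : RR β [0, 1, 0] (List.replicate (n + 1) 0 ++ 1 :: List.replicate (n + 1) 0)
  loc : ∀ u v : List ℕ, Mul u → Mul v → (∀ a, a ∈ u ↔ a ∈ v) →
    (∀ a, u.count a ≡ v.count a [MOD n]) →
      (∀ a b, a ≠ b → ([a, b].Sublist u ↔ [a, b].Sublist v)) → RR β u v
  e0 : ¬ RR β (ip n 0 ++ ip n 1 ++ 2 :: ip n 0) (ip n 0 ++ ip n 1 ++ ip n 0 ++ 2 :: ip n 0)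

/-- the gap word -/
def V7 (v : List ℕ) : List ℕ := v.map (fun c => c + 7)

/-- the first block: `b z z a V A z' z' B` -/
def c0 (v : List ℕ) : List ℕ := [1, 5, 5, 2] ++ V7 v ++ [3, 6, 6, 4]

/-- the pinned word with the second block `u` -/
def Sw (v u : List ℕ) : List ℕ := c0 v ++ 0 :: u

/-- words with two blocks of the right kind -/
structure Bas (n : ℕ) (v w0 w1 : List ℕ) : Prop where
  m0 : ∀ c, c ∈ w0 ↔ c ∈ c0 v
  m1 : ∀ c, c ∈ w1 ↔ (1 ≤ c ∧ c ≤ 4)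
  pt : ∀ c d, c ≠ d → ([c, d].Sublist w0 ↔ [c, d].Sublist (c0 v))
  tw : ∀ c, 5 ≤ c → c ∈ w0 → [c, c].Sublist w0
  rs : ∀ c, 5 ≤ c → w0.count c ≡ (c0 v).count c [MOD n]

/-- the invariant sets -/
def KS (n : ℕ) (v : List ℕ) (C : List ℕ → Prop) (w : List ℕ) : Prop :=
  ∃ w0 w1, w = w0 ++ 0 :: w1 ∧ Bas n v w0 w1 ∧ C w1

/-- `X v Y t X Y ≈ X v Y t X Y X` with `X = x^(2n)`, `Y = y^(2n)`; `x, y, t = 0, 1, 2` -/
def PV (n : ℕ) (β : FIC) (v : List ℕ) : Prop :=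
  RR β (ip n 0 ++ v.map (fun c => c + 3) ++ ip n 1 ++ 2 :: (ip n 0 ++ ip n 1))
    (ip n 0 ++ v.map (fun c => c + 3) ++ ip n 1 ++ 2 :: (ip n 0 ++ ip n 1 ++ ip n 0))

/-- `X v Y t Y X ≈ X v Y t X Y X` -/
def QV (n : ℕ) (β : FIC) (v : List ℕ) : Prop :=
  RR β (ip n 0 ++ v.map (fun c => c + 3) ++ ip n 1 ++ 2 :: (ip n 1 ++ ip n 0))
    (ip n 0 ++ v.map (fun c => c + 3) ++ ip n 1 ++ 2 :: (ip n 0 ++ ip n 1 ++ ip n 0))

/-- `x v y t x y ≈ x v y t y x` -/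
def DV (β : FIC) (v : List ℕ) : Prop :=
  RR β (0 :: (v.map (fun c => c + 3) ++ [1, 2, 0, 1]))
    (0 :: (v.map (fun c => c + 3) ++ [1, 2, 1, 0]))

end Pool.Agent.MWPN
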