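import Pool.Agent.Helper27_MWP.REG
import Pool.Agent.Helper37_MWP.HEX
import Pool.Agent.Helper37_MWP.HGT
import Pool.Agent.Helper66_MWP.CMB
import Pool.Agent.Helper27_MWPN.HTC
import Pool.Agent.Helper77_MWPN.MAP
import Pool.Agent.Helper1_MWPN.LOC
import Pool.Agent.Helper21_MWPN.CLS
import Pool.Agent.Helper27_MWPN.ISO
import Pool.Agent.Helper74_MWPN.GE1
import Pool.Agent.Helper36_MWPN.EGX
import Pool.Agent.Helper80_MWPN.ORD
import Pool.Agent.Helper59_MWPN.BAS
import Pool.Agent.Helper9_MWPN.VIS
import Pool.Agent.Helper47_MWPN.KPR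
import Pool.Agent.Helper36_MWPN.PEN
import Pool.Agent.Helper62_MWPN.ENL
import Pool.Agent.Helper62_MWPN.FIN

/-!
# Composition of the rows of block MWPN: the four letter pentagon, period `n`
-/

set_option autoImplicit false

namespace Pool.Agent.MWPN

/-- the five pairs are in the congruences `gaml` -/
theorem clsN : ClsStmt :=
  H21.cls (H77.map MWP.H37.hgt H27.htc) MWP.H66.cmb (H1.loc MWP.H27.reg)

/-- the result of the block -/
theorem finN : FinStmt := by
  have iso := H27.iso
  have ge1 := H74.ge1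
  have egx := H36.egx iso ge1
  have ord := H80.ord iso ge1 egx
  have bas := H59.bas iso egx ord
  have kpr := H47.kpr bas H9.vis
  exact H62F.fin (H36.pen clsN kpr) (H62.enl MWP.H37.hex)

end Pool.Agent.MWPN
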