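import Pool.Agent.MWPN.Defs

/-!
# Block MWPN: the rows (period `n`)

The rows are the rows of MWP with residues; the proofs there (`Pool/Agent/HelperNN_MWP/XXX.lean`)
should be adapted.  `p <+ w` means `List.Sublist`.  The rows REG, HEX, HGT, CMB of MWP are used
unchanged (`MWP.RegStmt`, ..).
`X = ip n 0` etc. is an idempotent: by `loc` all non-empty blocks `c^p`, `c^q` with `p, q ≥ 2`,
`p ≡ q [MOD n]` are equal, and `X X ≈ X`.
-/

namespace Pool.Agent.MWPN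

open Pool.Agent.Helper14_MV Pool.Agent.Helper2_MV Pool.Agent.MWF Pool.Agent.MWP

/-- **HTC** (uses nothing).  Heights of the gap words.
PROOF.  As `MWP.HtcStmt`, simpler: `[x+7,y+7] <+ V7 v` iff `[x,y] <+ v`; a chain of `V7 v` is the image
of a chain of `v` under `· + 7`. -/
def HtcStmt : Prop :=
  ∀ (v : List ℕ) (h : ℕ), Hgt v h →
    (∀ T, Chn (V7 v) T → T.length ≤ h) ∧
    (∀ T, Chn (V7 v ++ [6, 6]) T → T.length ≤ h + 1) ∧
    (∀ T, Chn ([5, 5] ++ V7 v) T → T.length ≤ h + 1) ∧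
    (∀ T, Chn [5, 5] T → T.length ≤ 1) ∧
    (∀ T, Chn [6, 6] T → T.length ≤ 1) ∧
    ∃ T : List ℕ, T.length = h ∧ (∀ x ∈ T, x ∈ V7 v) ∧
      (5 :: 2 :: T).Pairwise (fun x y => x ≠ y ∧ ¬ [y, x].Sublist (c0 v)) ∧
      (T ++ [3, 6]).Pairwise (fun x y => x ≠ y ∧ ¬ [y, x].Sublist (c0 v))

/-- **MAP** (uses MWP.HGT, HTC).  What a substitution does with the four letters.
PROOF.  As `MWP.MapStmt`.  (All letters of the part `M` between two kept letters occur twice in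
`M`: `Mul v`.) -/
def MapStmt : Prop :=
  ∀ (n : ℕ) (v : List ℕ) (h : ℕ), Mul v → Hgt v h → 2 ≤ h →
    ∀ (f : ℕ → List ℕ) (p α γ q u : List ℕ),
      (∀ c, c ∈ u ↔ (1 ≤ c ∧ c ≤ 4)) →
        Bas n v (p ++ (c0 v).flatMap f ++ α) (γ ++ u.flatMap f ++ q) → Good f

/-- **LOC** (uses MWP.REG).  Where is the simple letter.
PROOF.  As `MWP.LocStmt`.  New: `rs` in case (B): `u.Perm u'` gives that `(Sw v u).flatMap f` and
`(Sw v u').flatMap f` have the same counts (`List.Perm.flatMap`, `List.Perm.count_eq`).  (`Mul v` is used for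
`[c,c] <+ Sw v u`, `c ≥ 7`.) -/
def LocStmt : Prop :=
  ∀ (n : ℕ) (v u u' : List ℕ) (f : ℕ → List ℕ) (p q w0 w1 : List ℕ), Mul v →
    (∀ c, c ∈ u ↔ (1 ≤ c ∧ c ≤ 4)) → u.Perm u' → Bas n v w0 w1 →
      p ++ (Sw v u).flatMap f ++ q = w0 ++ 0 :: w1 →
        ∃ w0' w1', p ++ (Sw v u').flatMap f ++ q = w0' ++ 0 :: w1' ∧ Bas n v w0' w1' ∧
          ((∀ x y, [x, y].Sublist w1' ↔ [x, y].Sublist w1) ∨
            ∃ α γ, w0 = p ++ (c0 v).flatMap f ++ α ∧ w1 = γ ++ u.flatMap f ++ q ∧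
              w1' = γ ++ u'.flatMap f ++ q)

/-- **CLS** (uses MAP, MWP.CMB, LOC).  The five pairs are in the congruences `gaml`.
PROOF.  As `MWP.ClsStmt` (the five lists are permutations of each other). -/
def ClsStmt : Prop :=
  ∀ (n : ℕ) (v : List ℕ) (h : ℕ), Mul v → Hgt v h → 2 ≤ h → ∀ o : Bool,
    RR (gaml (KS n v (Cb o))) (Sw v (ro o [2, 4, 1, 3])) (Sw v (ro o [2, 3, 4, 1])) ∧
    RR (gaml (KS n v (Cc o))) (Sw v (ro o [2, 3, 4, 1])) (Sw v (ro o [4, 2, 3, 1])) ∧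
    RR (gaml (KS n v (Ck o))) (Sw v (ro o [2, 3, 4, 1])) (Sw v (ro o [4, 2, 3, 1])) ∧
    RR (gaml (KS n v (Cb o))) (Sw v (ro o [4, 2, 3, 1])) (Sw v (ro o [4, 1, 2, 3])) ∧
    RR (gaml (KS n v (Cc o))) (Sw v (ro o [2, 4, 1, 3])) (Sw v (ro o [4, 1, 2, 3]))

/-- **ISO** (uses nothing).  Related words have the same letters, the same multiple letters and
the same counts mod `n`.
PROOF.  Keep only the letter `c` (`RR.filter`; the result is `List.replicate (u.count c) c`), rename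
`c` to `0`, `ex`.  `c ∈ u` iff `1 ≤ u.count c`; `[c,c] <+ u` iff `2 ≤ u.count c`. -/
def IsoStmt : Prop :=
  ∀ (n : ℕ) (β : FIC), BtN n β → ∀ u v : List ℕ, RR β u v → ∀ c,
    (c ∈ u ↔ c ∈ v) ∧ ([c, c].Sublist u ↔ [c, c].Sublist v) ∧ u.count c ≡ v.count c [MOD n]

/-- **GE1** (uses nothing).  Three identities which are not in `β`; `X = ip n 0`, `Y = ip n 1`.
PROOF.  (3) If `X Y ≈ X Y X`, append `2 X`: contradiction to `e0`.  (2) If `Y X ≈ X Y X`, exchange the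
names: `X Y ≈ Y X Y ≈ X Y X` (`loc`: both patterns, counts `≡ 0`): (3).  (1) If `Y X 2 X ≈ X Y X 2 X`: delete
`2`: `Y X X ≈ X Y X X`, so `Y X ≈ X Y X` (`loc`): (2). -/
def Ge1Stmt : Prop :=
  ∀ (n : ℕ) (β : FIC), BtN n β →
    ¬ RR β (ip n 1 ++ ip n 0 ++ 2 :: ip n 0) (ip n 0 ++ ip n 1 ++ ip n 0 ++ 2 :: ip n 0) ∧
    ¬ RR β (ip n 1 ++ ip n 0) (ip n 0 ++ ip n 1 ++ ip n 0) ∧
    ¬ RR β (ip n 0 ++ ip n 1) (ip n 0 ++ ip n 1 ++ ip n 0)

/-- **EGX** (uses ISO, GE1).  A multiple letter stays in its blocks.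
PROOF.  Let `c ∈ w1'`, `c ∉ w1`.  Keep `0` and `c`, rename `c ↦ 0`, `0 ↦ 1`, substitute `0 ↦ ip n 0`:
`X t ≈ X t X` or `X t ≈ t X` (powers of `X` are `≈ X` by `loc`; the exponents are `≥ 1` where the letter
occurs); multiply by `X` on the left: `X t ≈ X t X`; put `t = Y` (`1 ↦ ip n 1`): GE1 (3).  Let `c ∈ w0'`,
`c ∉ w0`: in the same way `t X ≈ X t X`, `t = Y`: GE1 (2).  The converse: exchange the words. -/
def EgxStmt : Prop :=
  ∀ (n : ℕ) (β : FIC), BtN n β → ∀ w0 w1 w0' w1' : List ℕ, 0 ∉ w0 → 0 ∉ w1 → 0 ∉ w0' → 0 ∉ w1' →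
    RR β (w0 ++ 0 :: w1) (w0' ++ 0 :: w1') → ∀ c, c ≠ 0 → [c, c].Sublist (w0 ++ 0 :: w1) →
      (c ∈ w0 ↔ c ∈ w0') ∧ (c ∈ w1 ↔ c ∈ w1')

/-- **ORD** (uses ISO, GE1, EGX).  The order against a local letter is kept.
PROOF.  By EGX and ISO `z, c ∈ w0'`, `z ∉ w1'`, `[z,z] <+ w0'`, and `c ∈ w1` iff `c ∈ w1'`.  In both words keep
`c, z, 0` and substitute `c ↦ ip n 0`, `z ↦ ip n 1`, `0 ↦ 2` (one substitution; all other letters `↦ []`).
(a) `[z,c] <+ w0`, not `[z,c] <+ w0'`.  The second word becomes `X^i Y^j 2 X^k ≈ X Y 2 X^k`, the first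
`W 2 X^l`, `[1,0] <+ W`, `k ≥ 1` iff `l ≥ 1`.  If `k ≥ 1`: multiply by `X` on the left: `X Y 2 X ≈ X W 2 X`
and `X W ≈ X Y X` (`loc`: `Mul`, counts are multiples of `n`, both patterns): contradiction to `e0`.  If
`k = 0`: delete `2`: `X Y ≈ X W ≈ X Y X`: GE1 (3).
(b) `[c,z] <+ w0`, not `[c,z] <+ w0'`: second word `Y X 2 X^k`, first `W 2 X^l`, `[0,1] <+ W`.  `k ≥ 1`:
substitute `2 ↦ X 2`: `Y X 2 X ≈ W X 2 X ≈ X Y X 2 X`: GE1 (1).  `k = 0`: delete `2`, append `X`: GE1 (2). -/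
def OrdStmt : Prop :=
  ∀ (n : ℕ) (β : FIC), BtN n β → ∀ w0 w1 w0' w1' : List ℕ, 0 ∉ w0 → 0 ∉ w1 → 0 ∉ w0' → 0 ∉ w1' →
    RR β (w0 ++ 0 :: w1) (w0' ++ 0 :: w1') → ∀ c z, c ≠ z → c ≠ 0 → z ≠ 0 →
      [z, z].Sublist w0 → z ∉ w1 → c ∈ w0 → [c, c].Sublist (w0 ++ 0 :: w1) →
        ([c, z].Sublist w0 → [c, z].Sublist w0') ∧ ([z, c].Sublist w0 → [z, c].Sublist w0')

/-- **BAS** (uses ISO, EGX, ORD).  `β` keeps the kind of the two blocks.
PROOF.  As `MWP.BasStmt`.  New: `rs`: a letter `c ≥ 5` is not in `w1`, `w1'`, so its count in `w0` (`w0'`) is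
its count in `w` (`w'`): ISO; if `c ∉ c0 v` both counts are `0`. -/
def BasStmt : Prop :=
  ∀ (n : ℕ) (β : FIC), BtN n β → ∀ v w0 w1 w' : List ℕ, v ≠ [] → Bas n v w0 w1 →
    RR β (w0 ++ 0 :: w1) w' → ∃ w0' w1', w' = w0' ++ 0 :: w1' ∧ Bas n v w0' w1'

/-- **VIS** (uses nothing).  A change of a pattern between the two sides gives `PV` or `QV`.
PROOF.  Substitute (in both words) `l ↦ ip n 0`, `r ↦ ip n 1`, `0 ↦ 2`, `c + 7 ↦ c + 3` for `c + 7 ≥ 7`, the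
other letters `↦ []`.  The first block of both words becomes a word which is
`≈ ip n 0 ++ v.map (· + 3) ++ ip n 1` by `loc` (`Mul`: `tw`; counts: `rs`; patterns: `pt`; the letters `l`, `r` occur
in `w0`).  The second block becomes `≈ X Y` (if `[r,l]` is not a pattern), `≈ Y X` (if `[l,r]` is not a
pattern) or `≈ X Y X` (both) by `loc`.  First claim: `X Y` against `X Y X`: this is `PV`; or against `Y X`:
substitute `2 ↦ 2 X`: `.. 2 X Y ≈ .. 2 X Y X`: `PV`.  Second claim: `Y X` against `X Y X`: `QV`; against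
`X Y`: substitute `2 ↦ 2 Y`: `.. 2 Y X ≈ .. 2 Y X Y ≈ .. 2 X Y X`: `QV`. -/
def VisStmt : Prop :=
  ∀ (n : ℕ) (β : FIC), BtN n β → ∀ v w0 w1 w0' w1' : List ℕ, Mul v → Bas n v w0 w1 →
    Bas n v w0' w1' → RR β (w0 ++ 0 :: w1) (w0' ++ 0 :: w1') → ∀ l r, (l = 1 ∨ l = 2) →
      (r = 3 ∨ r = 4) →
      ([r, l].Sublist w1' → ¬ [r, l].Sublist w1 → PV n β v) ∧
      ([l, r].Sublist w1' → ¬ [l, r].Sublist w1 → QV n β v)

/-- **KPR** (uses BAS, VIS).  `β` keeps the invariant sets.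
PROOF.  As `MWP.KprStmt`. -/
def KprStmt : Prop :=
  ∀ (n : ℕ) (β : FIC), BtN n β → ∀ (v : List ℕ) (o : Bool), Mul v → v ≠ [] →
    (if o then ¬ QV n β v else ¬ PV n β v) → ∀ w w' : List ℕ, RR β w w' →
      (KS n v (Cb o) w → KS n v (Cb o) w') ∧ (KS n v (Cc o) w → KS n v (Cc o) w') ∧
        (KS n v (Ck o) w → KS n v (Ck o) w')

/-- **PEN** (uses CLS, KPR).  The pentagon.
PROOF.  As `MWP.PenStmt`. -/
def PenStmt : Prop :=
  ∀ (n : ℕ) (β : FIC), BtN n β → ModF β → ∀ (v : List ℕ) (h : ℕ), Mul v → Hgt v h → 2 ≤ h →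
    PV n β v ∧ QV n β v

/-- **ENL** (uses MWP.HEX).  Enlarging the gap word.
PROOF.  As `MWP.EnlStmt`, with `v' = v ++ [m, m, m + 1, m + 1]` (so that `Mul v'`); delete the letters
`m + 3`, `m + 4`. -/
def EnlStmt : Prop :=
  ∀ v : List ℕ, Mul v → ∃ (v' : List ℕ) (h : ℕ), Mul v' ∧ Hgt v' h ∧ 2 ≤ h ∧
    ∀ (n : ℕ) (β : FIC), (PV n β v' → PV n β v) ∧ (QV n β v' → QV n β v)

/-- **FIN** (uses PEN, ENL).  The result.
PROOF.  PEN and ENL give `PV n β v`, `QV n β v`.  `bet` twice: `x A x ≈ x^(2n+1) A x^(2n+1)` (apply it to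
the inner `x A x` of `x^(n+1) A x^(n+1)`).  So the left side of `DV` is `≈ x X v Y y t x X Y y` (`x`, then
`y`); `PV` after the substitution `2 ↦ y t x` (`[1,2,0]`): `X v Y y t x X Y ≈ X v Y y t x X Y X`; so it is
`≈ x X v Y y t (x X Y X y)`.  The right side is `≈ x X v Y y t y Y X x ≈ x X v Y y t (y X Y X x)` (`QV` with
`2 ↦ y t y`).  The two last factors are equal by `loc` (both patterns, counts `≡ 1`). -/
def FinStmt : Prop :=
  ∀ (n : ℕ) (β : FIC), BtN n β → ModF β → ∀ v : List ℕ, Mul v → DV β v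

end Pool.Agent.MWPN
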